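import Mathlib

set_option autoImplicit false

namespace Pool.Agent.H.MP_4366b5_co

open Finset

/-- Edge list of the host graph on `0..28`. -/
def L : List (ℕ × ℕ) := [(0, 3), (0, 6), (1, 3), (1, 6), (2, 3), (2, 6), (3, 4), (4, 5), (5, 6), (0, 7), (0, 10), (1, 7), (1, 10), (2, 7), (2, 10), (7, 8), (8, 9), (9, 10), (0, 13), (0, 16), (11, 13), (11, 16), (12, 13), (12, 16), (13, 14), (14, 15), (15, 16), (0, 17), (0, 20), (11, 17), (11, 20), (12, 17), (12, 20), (17, 18), (18, 19), (19, 20), (21, 25), (21, 26), (21, 27), (21, 28), (22, 25), (22, 26), (22, 27), (22, 28), (23, 25), (23, 26), (23, 27), (23, 28), (24, 25), (24, 26), (24, 27), (24, 28)]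

def ell (s : ℕ) : ℕ := if s % 8 = 0 then 0 else if s % 8 = 3 then 4 else 2

def eD (x b1 b2 b3 b4 b5 b6 b7 b8 b9 b10 : Bool) : ℕ := (x && b3).toNat + (x && b6).toNat + (b1 && b3).toNat + (b1 && b6).toNat + (b2 && b3).toNat + (b2 && b6).toNat + (b3 && b4).toNat + (b4 && b5).toNat + (b5 && b6).toNat + (x && b7).toNat + (x && b10).toNat + (b1 && b7).toNat + (b1 && b10).toNat + (b2 && b7).toNat + (b2 && b10).toNat + (b7 && b8).toNat + (b8 && b9).toNat + (b9 && b10).toNat

def cD (b1 b2 b3 b4 b5 b6 b7 b8 b9 b10 : Bool) : ℕ := b1.toNat + b2.toNat + b3.toNat + b4.toNat + b5.toNat + b6.toNat + b7.toNat + b8.toNat + b9.toNat + b10.toNat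

def eK (a0 a1 a2 a3 a4 a5 a6 a7 : Bool) : ℕ := (a0 && a4).toNat + (a0 && a5).toNat + (a0 && a6).toNat + (a0 && a7).toNat + (a1 && a4).toNat + (a1 && a5).toNat + (a1 && a6).toNat + (a1 && a7).toNat + (a2 && a4).toNat + (a2 && a5).toNat + (a2 && a6).toNat + (a2 && a7).toNat + (a3 && a4).toNat + (a3 && a5).toNat + (a3 && a6).toNat + (a3 && a7).toNat

def cK (a0 a1 a2 a3 a4 a5 a6 a7 : Bool) : ℕ := a0.toNat + a1.toNat + a2.toNat + a3.toNat + a4.toNat + a5.toNat + a6.toNat + a7.toNat

def T (x : Bool) (c : ℕ) : ℕ :=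
  if x then [0, 1, 2, 4, 6, 9, 12, 13, 15, 16, 18].getD c 0
  else [0, 0, 1, 2, 4, 6, 8, 9, 11, 12, 14].getD c 0

theorem eD_le : ∀ x b1 b2 b3 b4 b5 b6 b7 b8 b9 b10 : Bool,
    eD x b1 b2 b3 b4 b5 b6 b7 b8 b9 b10 ≤ T x (cD b1 b2 b3 b4 b5 b6 b7 b8 b9 b10) ∧ cD b1 b2 b3 b4 b5 b6 b7 b8 b9 b10 < 11 := by
  decide +kernel

theorem eK_le : ∀ a0 a1 a2 a3 a4 a5 a6 a7 : Bool,
    eK a0 a1 a2 a3 a4 a5 a6 a7 + ell (cK a0 a1 a2 a3 a4 a5 a6 a7) ≤ 2 * cK a0 a1 a2 a3 a4 a5 a6 a7 := by
  decide +kernel

theorem T_le : ∀ x : Bool, ∀ a < 11, ∀ b < 11,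
    T x a + T x b + ell (x.toNat + a + b) ≤ 2 * (x.toNat + a + b) := by
  decide +kernel

theorem ell_add (a b : ℕ) : ell (a + b) ≤ ell a + ell b := by
  unfold ell
  split_ifs <;> omega

theorem host (z : ℕ → Bool) :
    (L.map (fun p => (z p.1 && z p.2).toNat)).sum + ell (∑ w ∈ range 29, (z w).toNat)
      ≤ 2 * ∑ w ∈ range 29, (z w).toNat := by
  have h1 := eD_le (z 0) (z 1) (z 2) (z 3) (z 4) (z 5) (z 6) (z 7) (z 8) (z 9) (z 10)
  have h2 := eD_le (z 0) (z 11) (z 12) (z 13) (z 14) (z 15) (z 16) (z 17) (z 18) (z 19) (z 20)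
  have h0 := eK_le (z 21) (z 22) (z 23) (z 24) (z 25) (z 26) (z 27) (z 28)
  have h3 := T_le (z 0) _ h1.2 _ h2.2
  have e1 : (L.map (fun p => (z p.1 && z p.2).toNat)).sum =
      eD (z 0) (z 1) (z 2) (z 3) (z 4) (z 5) (z 6) (z 7) (z 8) (z 9) (z 10) + eD (z 0) (z 11) (z 12) (z 13) (z 14) (z 15) (z 16) (z 17) (z 18) (z 19) (z 20) + eK (z 21) (z 22) (z 23) (z 24) (z 25) (z 26) (z 27) (z 28) := by
    simp only [L, eD, eK, List.map_cons, List.map_nil, List.sum_cons, List.sum_nil]
    omega
  have e2 : ∑ w ∈ range 29, (z w).toNat =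
      ((z 0).toNat + cD (z 1) (z 2) (z 3) (z 4) (z 5) (z 6) (z 7) (z 8) (z 9) (z 10) + cD (z 11) (z 12) (z 13) (z 14) (z 15) (z 16) (z 17) (z 18) (z 19) (z 20)) + cK (z 21) (z 22) (z 23) (z 24) (z 25) (z 26) (z 27) (z 28) := by
    simp only [cD, cK, sum_range_succ, sum_range_zero]
    omega
  rw [e1, e2]
  have h4 := ell_add ((z 0).toNat + cD (z 1) (z 2) (z 3) (z 4) (z 5) (z 6) (z 7) (z 8) (z 9) (z 10) + cD (z 11) (z 12) (z 13) (z 14) (z 15) (z 16) (z 17) (z 18) (z 19) (z 20)) (cK (z 21) (z 22) (z 23) (z 24) (z 25) (z 26) (z 27) (z 28))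
  omega

theorem filter_len (l : List (ℕ × ℕ)) (q : ℕ × ℕ → Bool) :
    (l.filter q).length = (l.map (fun p => (q p).toNat)).sum := by
  induction l with
  | nil => simp
  | cons a l ih =>
    cases h : q a <;> simp [h, ih]
    omega

/-- adjacency in the host graph -/
def M (a b : ℕ) : Prop := (a, b) ∈ L ∨ (b, a) ∈ L

instance (a b : ℕ) : Decidable (M a b) := by unfold M; infer_instance

def Allowed {s : ℕ} (H : SimpleGraph (Fin s)) : Prop :=
  ∃ φ : Fin s → ℕ, Function.Injective φ ∧ (∀ i, φ i < 29) ∧ ∀ a b, H.Adj a b → M (φ a) (φ b)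

def OC {s : ℕ} (H : SimpleGraph (Fin s)) : Prop :=
  ∀ i : Fin s, 0 < i.val → ∃ j : Fin s, j.val < i.val ∧ H.Adj j i

theorem allowed_le {s : ℕ} (H : SimpleGraph (Fin s)) (h : Allowed H) : s ≤ 29 := by
  obtain ⟨φ, h1, h2, -⟩ := h
  have : (univ : Finset (Fin s)).card ≤ (range 29).card :=
    card_le_card_of_injOn φ (fun i _ => by simpa using h2 i) (fun a _ b _ h => h1 h)
  simpa using this

open Classical in
theorem allowed_count {s : ℕ} (H : SimpleGraph (Fin s)) (h : Allowed H) :
    ((univ : Finset (Fin s × Fin s)).filter (fun p => H.Adj p.1 p.2)).card + 2 * ell s ≤ 4 * s := by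
  obtain ⟨φ, h1, h2, h3⟩ := h
  let z : ℕ → Bool := fun w => decide (∃ i, φ i = w)
  have hz : ∀ i, z (φ i) = true := fun i => by simp [z]
  have hs : ∑ w ∈ range 29, (z w).toNat = s := by
    have : ∑ w ∈ range 29, (z w).toNat = ((range 29).filter (fun w => ∃ i, φ i = w)).card := by
      rw [card_filter]
      refine sum_congr rfl (fun w _ => ?_)
      by_cases hw : ∃ i, φ i = w <;> simp [z, hw]
    rw [this]
    have e : (range 29).filter (fun w => ∃ i, φ i = w) = univ.image φ := by
      ext w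
      simp only [mem_filter, mem_range, mem_image, mem_univ, true_and]
      constructor
      · exact fun h => h.2
      · rintro ⟨i, rfl⟩
        exact ⟨h2 i, i, rfl⟩
    rw [e, card_image_of_injective _ h1]
    simp
  have hh := host z
  rw [hs, ← filter_len L (fun p => z p.1 && z p.2)] at hh
  set l := L.filter (fun p => z p.1 && z p.2) with hl
  have hc : ((univ : Finset (Fin s × Fin s)).filter (fun p => H.Adj p.1 p.2)).card ≤
      (l.toFinset ∪ (l.map Prod.swap).toFinset).card := by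
    refine card_le_card_of_injOn (fun p => (φ p.1, φ p.2)) ?_ ?_
    · intro p hp
      simp only [coe_filter, mem_univ, true_and, Set.mem_setOf_eq] at hp
      rcases h3 _ _ hp with h | h
      · simp only [coe_union, Set.mem_union, mem_coe, List.mem_toFinset]
        left
        rw [hl, List.mem_filter]
        exact ⟨h, by simp [hz]⟩
      · simp only [coe_union, Set.mem_union, mem_coe, List.mem_toFinset]
        right
        rw [List.mem_map]
        refine ⟨(φ p.2, φ p.1), ?_, rfl⟩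
        rw [hl, List.mem_filter]
        exact ⟨h, by simp [hz]⟩
    · intro p _ q _ hpq
      simp only [Prod.mk.injEq] at hpq
      exact Prod.ext (h1 hpq.1) (h1 hpq.2)
  have h5 := card_union_le l.toFinset (l.map Prod.swap).toFinset
  have h6 := List.toFinset_card_le l
  have h7 := List.toFinset_card_le (l.map Prod.swap)
  rw [List.length_map] at h7
  omega

section
variable {α : Type} (R : α → α → Prop)

theorem grow (X : Finset α) (v : α) (hv : v ∈ X) (j : ℕ) :
    ∃ s : ℕ, ∃ f : ℕ → α, 0 < s ∧ s ≤ j + 1 ∧ (∀ i < s, f i ∈ X) ∧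
      (∀ i < s, ∀ i' < s, f i = f i' → i = i') ∧
      (∀ i < s, 0 < i → ∃ i' < i, R (f i') (f i)) ∧
      (s = j + 1 ∨ ∀ i < s, ∀ w ∈ X, R (f i) w → ∃ i' < s, f i' = w) := by
  classical
  induction j with
  | zero =>
    refine ⟨1, fun _ => v, one_pos, le_rfl, fun _ _ => hv, fun i hi i' hi' _ => by omega,
      fun i hi h => by omega, Or.inl rfl⟩
  | succ j ih =>
    obtain ⟨s, f, h0, h1, h2, h3, h4, h5⟩ := ih
    by_cases hc : ∀ i < s, ∀ w ∈ X, R (f i) w → ∃ i' < s, f i' = w
    · exact ⟨s, f, h0, by omega, h2, h3, h4, Or.inr hc⟩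
    · have hs : s = j + 1 := h5.resolve_right hc
      push Not at hc
      obtain ⟨i0, hi0, w, hw, hR, hn⟩ := hc
      refine ⟨s + 1, fun i => if i = s then w else f i, by omega, by omega, ?_, ?_, ?_,
        Or.inl (by omega)⟩
      · intro i hi
        by_cases h : i = s
        · simp [h, hw]
        · simp only [h, if_false]
          exact h2 i (by omega)
      · intro i hi i' hi' h
        by_cases ha : i = s <;> by_cases hb : i' = s
        · omega
        · simp only [ha, hb, if_true, if_false] at h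
          exact absurd h.symm (hn i' (by omega))
        · simp only [ha, hb, if_true, if_false] at h
          exact absurd h (hn i (by omega))
        · simp only [ha, hb, if_false] at h
          exact h3 i (by omega) i' (by omega) h
      · intro i hi hp
        by_cases ha : i = s
        · refine ⟨i0, by omega, ?_⟩
          have : i0 ≠ s := by omega
          simp only [ha, this, if_true, if_false]
          exact hR
        · obtain ⟨i', h6, h7⟩ := h4 i (by omega) hp
          refine ⟨i', h6, ?_⟩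
          have : i' ≠ s := by omega
          simp only [ha, this, if_false]
          exact h7

open Classical in
theorem upper (hsym : ∀ a b, R a b → R b a) (hirr : ∀ a, ¬ R a a)
    (hfree : ∀ s ≤ 30, ∀ (H : SimpleGraph (Fin s)) (f : Fin s ↪ α),
      (∀ a b, H.Adj a b → R (f a) (f b)) → OC H → Allowed H) (n : ℕ) :
    ∀ X : Finset α, X.card = n →
      ((X ×ˢ X).filter (fun p => R p.1 p.2)).card + 2 * ell n ≤ 4 * n := by
  induction n using Nat.strong_induction_on with
  | _ n ih =>
    intro X hX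
    rcases X.eq_empty_or_nonempty with rfl | ⟨v, hv⟩
    · simp only [card_empty] at hX
      subst hX
      simp [ell]
    obtain ⟨s, f, h0, h1, h2, h3, h4, h5⟩ := grow R X v hv 29
    let F : Fin s ↪ α := ⟨fun i => f i.val, fun a b h => Fin.ext (h3 _ a.2 _ b.2 h)⟩
    let H : SimpleGraph (Fin s) :=
      { Adj := fun a b => R (F a) (F b)
        symm := ⟨fun a b h => hsym _ _ h⟩
        loopless := ⟨fun a => hirr _⟩ }
    have hoc : OC H := by
      intro i hi
      obtain ⟨i', h6, h7⟩ := h4 i.val i.2 hi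
      exact ⟨⟨i', by omega⟩, h6, h7⟩
    have hal : Allowed H := hfree s (by omega) H F (fun a b h => h) hoc
    have hle := allowed_le H hal
    have hcl := h5.resolve_left (by omega)
    have hcount := allowed_count H hal
    let Y : Finset α := univ.map F
    have hY : Y.card = s := by simp [Y]
    have hYX : Y ⊆ X := by
      intro w hw
      simp only [Y, mem_map, mem_univ, true_and] at hw
      obtain ⟨i, rfl⟩ := hw
      exact h2 _ i.2
    have hXY : (X \ Y).card = n - s := by rw [card_sdiff_of_subset hYX, hX, hY]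
    have hsn : s ≤ n := by rw [← hY, ← hX]; exact card_le_card hYX
    have hrec := ih (n - s) (by omega) (X \ Y) hXY
    have hsub : (X ×ˢ X).filter (fun p => R p.1 p.2) ⊆
        ((univ : Finset (Fin s × Fin s)).filter (fun p => H.Adj p.1 p.2)).image
          (fun p => (F p.1, F p.2)) ∪ ((X \ Y) ×ˢ (X \ Y)).filter (fun p => R p.1 p.2) := by
      rintro ⟨a, b⟩ hp
      simp only [mem_filter, mem_product] at hp
      obtain ⟨⟨ha, hb⟩, hR⟩ := hp
      have key : ∀ a b, a ∈ Y → b ∈ X → R a b → b ∈ Y := by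
        intro a b ha hb hR
        simp only [Y, mem_map, mem_univ, true_and] at ha ⊢
        obtain ⟨i, rfl⟩ := ha
        obtain ⟨i', h6, h7⟩ := hcl i.val i.2 b hb hR
        exact ⟨⟨i', h6⟩, h7⟩
      by_cases hay : a ∈ Y
      · have hby := key a b hay hb hR
        simp only [Y, mem_map, mem_univ, true_and] at hay hby
        obtain ⟨i, rfl⟩ := hay
        obtain ⟨i', rfl⟩ := hby
        refine mem_union_left _ (mem_image.2 ⟨(i, i'), ?_, rfl⟩)
        simp only [mem_filter, mem_univ, true_and]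
        exact hR
      · have hby : b ∉ Y := fun h => hay (key b a h ha (hsym _ _ hR))
        refine mem_union_right _ ?_
        simp only [mem_filter, mem_product, mem_sdiff]
        exact ⟨⟨⟨ha, hay⟩, hb, hby⟩, hR⟩
    have h6 := (card_le_card hsub).trans (card_union_le _ _)
    have h7 := card_image_le (s := (univ : Finset (Fin s × Fin s)).filter (fun p => H.Adj p.1 p.2))
      (f := fun p => (F p.1, F p.2))
    have h8 := ell_add s (n - s)
    rw [Nat.add_sub_cancel' hsn] at h8
    omega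

end

open Classical in
theorem no_clique (t N : ℕ) (hN : 8 * (2 * t + 1) + 3 ≤ N) (c : Sym2 (Fin N) → Fin (4 * t + 3))
    (hfree : ∀ s ≤ 30, ∀ (H : SimpleGraph (Fin s)) (f : Fin s ↪ Fin N) (col : Fin (4 * t + 3)),
      (∀ a b, H.Adj a b → c s(f a, f b) = col) → OC H → Allowed H) : False := by
  obtain ⟨X, -, hX⟩ := exists_subset_card_eq (s := (univ : Finset (Fin N)))
    (n := 8 * (2 * t + 1) + 3) (by simpa using hN)
  have h1 : ∀ col : Fin (4 * t + 3),
      ((X ×ˢ X).filter (fun p => p.1 ≠ p.2 ∧ c s(p.1, p.2) = col)).card + 8 ≤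
        4 * (8 * (2 * t + 1) + 3) := by
    intro col
    have := upper (fun a b : Fin N => a ≠ b ∧ c s(a, b) = col)
      (fun a b h => ⟨h.1.symm, by rw [Sym2.eq_swap]; exact h.2⟩) (fun a h => h.1 rfl)
      (fun s hs H f h hoc => hfree s hs H f col (fun a b hab => (h a b hab).2) hoc) _ X hX
    have e : ell (8 * (2 * t + 1) + 3) = 4 := by
      unfold ell
      split_ifs <;> omega
    rw [e] at this
    convert this
  have h2 : X.offDiag.card = ∑ col : Fin (4 * t + 3),
      ((X ×ˢ X).filter (fun p => p.1 ≠ p.2 ∧ c s(p.1, p.2) = col)).card := by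
    rw [card_eq_sum_card_fiberwise (f := fun p : Fin N × Fin N => c s(p.1, p.2))
      (t := univ) (fun _ _ => by simp)]
    refine sum_congr rfl (fun col _ => ?_)
    congr 1
    ext p
    simp only [mem_filter, mem_offDiag, mem_product]
    tauto
  have h3 : ∑ col : Fin (4 * t + 3),
      (((X ×ˢ X).filter (fun p => p.1 ≠ p.2 ∧ c s(p.1, p.2) = col)).card + 8) ≤
      ∑ _col : Fin (4 * t + 3), 4 * (8 * (2 * t + 1) + 3) := sum_le_sum (fun col _ => h1 col)
  rw [sum_add_distrib, ← h2, offDiag_card, hX] at h3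
  simp only [sum_const, card_univ, Fintype.card_fin, smul_eq_mul] at h3
  have h4 : (8 * (2 * t + 1) + 3) * (8 * (2 * t + 1) + 3) = 256 * (t * t) + 352 * t + 121 := by ring
  have h5 : (4 * t + 3) * (4 * (8 * (2 * t + 1) + 3)) = 256 * (t * t) + 368 * t + 132 := by ring
  rw [h4, h5] at h3
  omega

end Pool.Agent.H.MP_4366b5_co
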