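import Mathlib
import Pool.Agent.H.MP_4366b5_co.A

set_option autoImplicit false

namespace Pool.Agent.H.MP_4366b5_co

abbrev Z (t : ℕ) := ZMod (2 * t + 1)
abbrev B (t : ℕ) := Bool ⊕ (Z t × Bool × Fin 4)
abbrev V (t : ℕ) := Option (Bool × B t)
abbrev Col (t : ℕ) := Option (Z t × Bool)

def inner (r : Fin 4) : Bool := r = 1 || r = 2
def cl (r r' : Fin 4) : Bool := !(r.val + 1 = r'.val || r'.val + 1 = r.val)
def pos (i : Bool) (r : Fin 4) : ℕ := if i then [2, 0, 3, 1].getD r.val 0 else r.val

variable {t : ℕ}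

def w (t : ℕ) : Z t := ((t + 1 : ℕ) : Z t)

theorem two_w : 2 * w t = 1 := by
  have h : ((2 * t + 1 : ℕ) : Z t) = 0 := ZMod.natCast_self _
  unfold w
  push_cast at h ⊢
  linear_combination h

def cA : Option (B t) → Option (B t) → Col t
  | some (Sum.inr (a, h, r)), some (Sum.inr (b, h', r')) =>
      if a = b then (if h = h' then some (a, cl r r') else none) else some ((a + b) * w t, xor h h')
  | some (Sum.inr (a, _, r)), none => some (a, inner r)
  | some (Sum.inr (a, _, r)), some (Sum.inl _) => some (a, inner r)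
  | none, some (Sum.inr (a, _, r)) => some (a, inner r)
  | some (Sum.inl _), some (Sum.inr (a, _, r)) => some (a, inner r)
  | none, none => none
  | none, some (Sum.inl _) => none
  | some (Sum.inl _), none => none
  | some (Sum.inl _), some (Sum.inl _) => none

theorem cl_symm : ∀ r r' : Fin 4, cl r r' = cl r' r := by decide

theorem cA_symm (x y : Option (B t)) : cA x y = cA y x := by
  rcases x with _ | s | ⟨a, h, r⟩ <;> rcases y with _ | s' | ⟨b, h', r'⟩ <;> simp only [cA]
  by_cases hab : a = b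
  · subst hab
    by_cases hh : h = h'
    · subst hh
      simp [cl_symm r r']
    · simp [hh, Ne.symm hh]
  · simp [hab, Ne.symm hab, add_comm a b, Bool.xor_comm h h']

def cV (v v' : V t) : Col t := cA (v.map Prod.snd) (v'.map Prod.snd)

def adj : V t → V t → Prop
  | none, none => False
  | none, some (_, b) => b ≠ Sum.inl true
  | some (_, b), none => b ≠ Sum.inl true
  | some (σ, b), some (σ', b') =>
      (σ = σ' ∧ b ≠ b') ∨ (σ ≠ σ' ∧ b = Sum.inl true ∧ b' = Sum.inl true)

def G (t : ℕ) : SimpleGraph (V t) where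
  Adj := adj
  symm := ⟨by
    rintro (_ | ⟨σ, b⟩) (_ | ⟨σ', b'⟩) h
    · exact h
    · exact h
    · exact h
    · rcases h with h | h
      · exact Or.inl ⟨h.1.symm, h.2.symm⟩
      · exact Or.inr ⟨h.1.symm, h.2.2, h.2.1⟩⟩
  loopless := ⟨by
    rintro (_ | ⟨σ, b⟩) h
    · exact h
    · rcases h with h | h
      · exact h.2 rfl
      · exact h.1 rfl⟩

def lab : Col t → V t → Option (Bool × Z t × Bool)
  | _, none => none
  | _, some (_, Sum.inl _) => none
  | none, some (σ, Sum.inr (a, _, _)) => some (σ, a, false)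
  | some (p, i), some (σ, Sum.inr (a, h, _)) =>
      if a = p then none
      else if a.val < (2 * p - a).val then some (σ, a, h) else some (σ, 2 * p - a, xor h i)

def e0 (σ s : Bool) : ℕ := if σ then (if s then 5 else 6) else (if s then 4 else 3)
def e1 (σ s : Bool) : ℕ := 1 + 10 * σ.toNat + s.toNat
def e2 (σ h i : Bool) (r : Fin 4) : ℕ := 3 + 10 * σ.toNat + 4 * h.toNat + pos i r
def e3 (h : Bool) (r : Fin 4) : ℕ := 21 + 4 * h.toNat + r.val

def emb : Col t → V t → ℕ
  | _, none => 0
  | none, some (σ, Sum.inl s) => e0 σ s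
  | some _, some (σ, Sum.inl s) => e1 σ s
  | none, some (_, Sum.inr (_, h, r)) => e3 h r
  | some (p, i), some (σ, Sum.inr (a, h, r)) =>
      if a = p then e2 σ h i r
      else if a.val < (2 * p - a).val then e3 false r else e3 true r

theorem lt0 : ∀ σ s, e0 σ s < 29 := by decide
theorem lt1 : ∀ σ s, e1 σ s < 29 := by decide
theorem lt2 : ∀ σ h i r, e2 σ h i r < 29 := by decide
theorem lt3 : ∀ h r, e3 h r < 29 := by decide

theorem emb_lt (col : Col t) (v : V t) : emb col v < 29 := by
  rcases col with _ | ⟨p, i⟩ <;> rcases v with _ | ⟨σ, s | ⟨a, h, r⟩⟩ <;> simp only [emb]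
  · omega
  · exact lt0 _ _
  · exact lt3 _ _
  · omega
  · exact lt1 _ _
  · split_ifs
    · exact lt2 _ _ _ _
    · exact lt3 _ _
    · exact lt3 _ _

theorem i0 : ∀ σ s σ' s', e0 σ s = e0 σ' s' → σ = σ' ∧ s = s' := by decide
theorem i1 : ∀ σ s σ' s', e1 σ s = e1 σ' s' → σ = σ' ∧ s = s' := by decide
theorem i2 : ∀ i σ h r σ' h' r', e2 σ h i r = e2 σ' h' i r' → σ = σ' ∧ h = h' ∧ r = r' := by
  decide +kernel
theorem i3 : ∀ h r h' r', e3 h r = e3 h' r' → h = h' ∧ r = r' := by decide +kernel
theorem n0 : ∀ σ s, e0 σ s ≠ 0 := by decide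
theorem n1 : ∀ σ s, e1 σ s ≠ 0 := by decide
theorem n2 : ∀ σ h i r, e2 σ h i r ≠ 0 := by decide
theorem n12 : ∀ σ s σ' h i r, e1 σ s ≠ e2 σ' h i r := by decide +kernel
theorem xor_c : ∀ h h' i : Bool, xor h i = xor h' i → h = h' := by decide

theorem lab_emb_inj (col : Col t) (v v' : V t) (h1 : lab col v = lab col v')
    (h2 : emb col v = emb col v') : v = v' := by
  rcases col with _ | ⟨p, i⟩ <;> rcases v with _ | ⟨σ, s | ⟨a, h, r⟩⟩ <;>
    rcases v' with _ | ⟨σ', s' | ⟨a', h', r'⟩⟩ <;> simp only [lab, emb] at h1 h2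
  · rfl
  · exact absurd h2.symm (n0 _ _)
  · simp at h1
  · exact absurd h2 (n0 _ _)
  · obtain ⟨rfl, rfl⟩ := i0 _ _ _ _ h2
    rfl
  · simp at h1
  · simp at h1
  · simp at h1
  · obtain ⟨rfl, rfl⟩ := i3 _ _ _ _ h2
    simp only [Option.some.injEq, Prod.mk.injEq] at h1
    obtain ⟨rfl, rfl, -⟩ := h1
    rfl
  · rfl
  · exact absurd h2.symm (n1 _ _)
  · split_ifs at h1 h2
    exact absurd h2.symm (n2 _ _ _ _)
  · exact absurd h2 (n1 _ _)
  · obtain ⟨rfl, rfl⟩ := i1 _ _ _ _ h2
    rfl
  · split_ifs at h1 h2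
    exact absurd h2 (n12 _ _ _ _ _ _)
  · split_ifs at h1 h2
    exact absurd h2 (n2 _ _ _ _)
  · split_ifs at h1 h2
    exact absurd h2.symm (n12 _ _ _ _ _ _)
  · split_ifs at h1 h2 with c1 c2 c3 c4 c5 c6 c7 c8
    · obtain ⟨rfl, rfl, rfl⟩ := i2 _ _ _ _ _ _ _ h2
      rw [c1, c2]
    · obtain ⟨-, rfl⟩ := i3 _ _ _ _ h2
      simp only [Option.some.injEq, Prod.mk.injEq] at h1
      obtain ⟨rfl, rfl, rfl⟩ := h1
      rfl
    · exact absurd (i3 _ _ _ _ h2).1 (by decide)
    · exact absurd (i3 _ _ _ _ h2).1 (by decide)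
    · obtain ⟨-, rfl⟩ := i3 _ _ _ _ h2
      simp only [Option.some.injEq, Prod.mk.injEq] at h1
      obtain ⟨rfl, h3, h4⟩ := h1
      obtain rfl := xor_c _ _ _ h4
      obtain rfl : a = a' := by linear_combination -h3
      rfl

theorem m1 : ∀ σ, M 0 (e0 σ false) ∧ M (e0 σ false) 0 := by decide +kernel
theorem m2 : ∀ σ s s', s ≠ s' → M (e0 σ s) (e0 σ s') := by decide +kernel
theorem m3 : ∀ σ σ', σ ≠ σ' → M (e0 σ true) (e0 σ' true) := by decide +kernel
theorem m4 : ∀ σ h r, M 0 (e2 σ h (inner r) r) ∧ M (e2 σ h (inner r) r) 0 := by decide +kernel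
theorem m5 : ∀ σ s h r, M (e1 σ s) (e2 σ h (inner r) r) ∧ M (e2 σ h (inner r) r) (e1 σ s) := by
  decide +kernel
theorem m6 : ∀ σ h r r', r ≠ r' → M (e2 σ h (cl r r') r) (e2 σ h (cl r r') r') := by
  decide +kernel
theorem m7 : ∀ h r h' r', h ≠ h' → M (e3 h r) (e3 h' r') := by decide +kernel
theorem xor_d : ∀ h h' : Bool, xor h' (xor h h') = h ∧ xor h (xor h h') = h' := by decide

theorem adj_ok (v v' : V t) (hadj : (G t).Adj v v') :
    lab (cV v v') v = lab (cV v v') v' ∧ M (emb (cV v v') v) (emb (cV v v') v') := by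
  change adj v v' at hadj
  rcases v with _ | ⟨σ, s | ⟨a, h, r⟩⟩ <;> rcases v' with _ | ⟨σ', s' | ⟨a', h', r'⟩⟩ <;>
    simp only [adj] at hadj <;> simp only [cV, Option.map_none, Option.map_some, cA]
  · cases s'
    · exact ⟨rfl, (m1 _).1⟩
    · exact absurd rfl hadj
  · simp only [lab, emb, if_true]
    exact ⟨trivial, (m4 _ _ _).1⟩
  · cases s
    · exact ⟨rfl, (m1 _).2⟩
    · exact absurd rfl hadj
  · rcases hadj with ⟨rfl, h⟩ | ⟨h1, h2, h3⟩
    · exact ⟨rfl, m2 _ _ _ (fun e => h (by rw [e]))⟩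
    · obtain rfl : s = true := by simpa using h2
      obtain rfl : s' = true := by simpa using h3
      exact ⟨rfl, m3 _ _ h1⟩
  · rcases hadj with ⟨rfl, h⟩ | ⟨h1, h2, h3⟩
    · simp only [lab, emb, if_true]
      exact ⟨trivial, (m5 _ _ _ _).1⟩
    · simp at h3
  · simp only [lab, emb, if_true]
    exact ⟨trivial, (m4 _ _ _).2⟩
  · rcases hadj with ⟨rfl, h⟩ | ⟨h1, h2, h3⟩
    · simp only [lab, emb, if_true]
      exact ⟨trivial, (m5 _ _ _ _).2⟩
    · simp at h2
  · rcases hadj with ⟨rfl, hne⟩ | ⟨h1, h2, h3⟩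
    · by_cases hab : a = a'
      · subst hab
        by_cases hh : h = h'
        · subst hh
          simp only [lab, emb, if_true]
          exact ⟨trivial, m6 _ _ _ _ (fun e => hne (by rw [e]))⟩
        · simp only [hh, lab, emb, if_true, if_false]
          exact ⟨trivial, m7 _ _ _ _ hh⟩
      · have hw := two_w (t := t)
        have q1 : 2 * ((a + a') * w t) - a = a' := by linear_combination (a + a') * hw
        have q2 : 2 * ((a + a') * w t) - a' = a := by linear_combination (a + a') * hw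
        have q3 : a ≠ (a + a') * w t := fun e => hab (by linear_combination 2 * e + q1)
        have q4 : a' ≠ (a + a') * w t := fun e => hab (by linear_combination -2 * e - q2)
        have q5 : a.val ≠ a'.val := fun e => hab (ZMod.val_injective _ e)
        simp only [hab, lab, emb, if_false, q1, q2, q3, q4]
        by_cases c : a.val < a'.val
        · have c' : ¬ a'.val < a.val := by omega
          simp only [c, c', if_true, if_false, (xor_d h h').1]
          exact ⟨trivial, m7 _ _ _ _ (by decide)⟩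
        · have c' : a'.val < a.val := by omega
          simp only [c, c', if_true, if_false, (xor_d h h').2]
          exact ⟨trivial, m7 _ _ _ _ (by decide)⟩
    · simp at h2

theorem free {s : ℕ} (H : SimpleGraph (Fin s)) (f : Fin s → V t) (hf : Function.Injective f)
    (col : Col t) (h : ∀ a b, H.Adj a b → (G t).Adj (f a) (f b) ∧ cV (f a) (f b) = col)
    (hoc : OC H) : Allowed H := by
  have key : ∀ n, ∀ i j : Fin s, i.val = n → j.val = 0 → lab col (f i) = lab col (f j) := by
    intro n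
    induction n using Nat.strong_induction_on with
    | _ n ih =>
      intro i j hi hj
      by_cases h0 : i.val = 0
      · rw [show i = j from Fin.ext (by omega)]
      · obtain ⟨i', h1, h2⟩ := hoc i (by omega)
        obtain ⟨h3, h4⟩ := h _ _ h2
        have := (adj_ok _ _ h3).1
        rw [h4] at this
        rw [← this]
        exact ih i'.val (by omega) i' j rfl hj
  refine ⟨fun i => emb col (f i), ?_, fun i => emb_lt _ _, ?_⟩
  · intro a b hab
    apply hf
    refine lab_emb_inj col _ _ ?_ hab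
    have h0 : 0 < s := lt_of_le_of_lt (Nat.zero_le _) a.2
    rw [key _ a ⟨0, h0⟩ rfl rfl, key _ b ⟨0, h0⟩ rfl rfl]
  · intro a b hab
    obtain ⟨h3, h4⟩ := h _ _ hab
    have := (adj_ok _ _ h3).2
    rwa [h4] at this

theorem chrom (N : ℕ) (κ : V t → Fin N) (hκ : ∀ v v', (G t).Adj v v' → κ v ≠ κ v') :
    8 * (2 * t + 1) + 3 ≤ N := by
  by_contra hN
  have hc : Fintype.card (B t) = 8 * (2 * t + 1) + 2 := by
    simp only [B, Fintype.card_sum, Fintype.card_prod, Fintype.card_bool, Fintype.card_fin,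
      ZMod.card]
    ring
  have key : ∀ σ : Bool, κ none = κ (some (σ, Sum.inl true)) := by
    intro σ
    have hinj : Function.Injective (fun b : B t => κ (some (σ, b))) := by
      intro b b' hb
      by_contra hne
      exact hκ (some (σ, b)) (some (σ, b')) (Or.inl ⟨rfl, hne⟩) hb
    have hle := Fintype.card_le_of_injective _ hinj
    rw [hc, Fintype.card_fin] at hle
    have hbij := (Fintype.bijective_iff_injective_and_card _).2
      ⟨hinj, by rw [hc, Fintype.card_fin]; omega⟩
    obtain ⟨b, hb⟩ := hbij.2 (κ none)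
    by_cases e : b = Sum.inl true
    · rw [← e]
      exact hb.symm
    · exact absurd hb (hκ (some (σ, b)) none e)
  exact hκ (some (false, Sum.inl true)) (some (true, Sum.inl true))
    (Or.inr ⟨by decide, rfl, rfl⟩) (by rw [← key, ← key])

theorem card_col : Fintype.card (Col t) = 4 * t + 3 := by
  simp only [Col, Fintype.card_option, Fintype.card_prod, Fintype.card_bool, ZMod.card]
  ring

end Pool.Agent.H.MP_4366b5_co
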